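import Pool.Agent.Helper18.ZE.Main
import Pool.Agent.Helper45.ZE.S
import Pool.Agent.Helper44.ZE.Num
import Pool.Agent.Helper94.ZE.ClusterU
import Pool.Agent.Helper84.ZE.PrimeU
import Pool.Agent.Helper62.ZE.OmU
import Pool.Agent.Helper48.ZE.NUMU

/-!
# ZE: from `core` and the pieces to the theorem
-/

set_option autoImplicit false

namespace Pool.Agent.Helper18.ZE

open Finset Pool.Agent.Helper45.ZE Pool.Agent.Helper44.ZE Pool.Agent.Helper78.ZE

theorem pow_four_le_exp (y : ℝ) (hy : 120 ≤ y) : y ^ 4 ≤ Real.exp y := by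
  have h0 : 0 ≤ y := by linarith
  have h1 := Real.pow_div_factorial_le_exp y h0 5
  have h2 : y ^ 4 ≤ y ^ 5 / (Nat.factorial 5 : ℕ) := by
    have h3 : ((Nat.factorial 5 : ℕ) : ℝ) = 120 := by norm_num [Nat.factorial]
    rw [h3, le_div_iff₀ (by norm_num)]
    nlinarith [pow_nonneg h0 4]
  exact h2.trans h1

theorem rad_pos (N : ℕ) : 0 < ∏ p ∈ N.primeFactors, p :=
  Finset.prod_pos fun _ hp => (Nat.prime_of_mem_primeFactors hp).pos

theorem main_core {a b B r s0 K : ℕ} {L : ℝ} (hB : 1 ≤ B) (hr : r + 1 = 2048 * B) (hs0 : s0 = 512 * B) (hK : K = 16 * B)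
    (ha : 0 < a) (hb : 0 < b) (hab : a.Coprime b) (hL : L = Real.log (a + b : ℕ)) (hLB : 8192 * B ≤ Real.log L)
    (hL0 : 1 ≤ L) (hrad : ((∏ p ∈ (a * b * (a + b)).primeFactors, p : ℕ) : ℝ) ≤ L ^ B)
    (hcl : ∀ Q : ℕ, L ≤ 128 * B * Real.log L * Q → 64 * B * Real.log L * Q ≤ L →
      ∃ (Y : ℕ) (T : Finset (ℕ × ℕ)), 1 ≤ Y ∧
        Real.log Y ≤ Real.log (modulus (a + b) Q) - Real.log L / 2 ∧ Q ≤ T.card ^ 9 ∧
        (∀ x ∈ T, ∀ y ∈ T, x.1 = y.1 → x = y) ∧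
        (∀ x ∈ T, x.1 < Q ∧ x.2.Prime ∧ x.2 ≤ Y ∧ 4 * Q < x.2 ∧ x.2.Coprime (a * b * (a + b))) ∧
        ∀ x ∈ T, ∀ y ∈ T, (∀ p ∈ (a * b).primeFactors, box a b Q K x.1 p = box a b Q K y.1 p) ∧
          theta a b Q x.1 x.2 ≡ theta a b Q y.1 y.2 [MOD modulus (a + b) Q])
    (hsel : ∀ (Q : ℕ) (T : Finset ℕ), L ≤ (Q : ℝ) ^ 2 → Q.Prime → (∀ n ∈ T, n < Q) →
      Q ≤ T.card ^ 9 →
      ∃ q : ℕ, q.Prime ∧ Q < q ∧ q ≤ 4 * Q ∧ ¬ q ∣ a * b * (a + b) ∧
        ∃ n : Fin (r + 1) → ℕ, (∀ i, n i ∈ T) ∧ Dense r Q q n)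
    (hnum : ∀ (lP lY lN : ℝ) (Q q T0 T1 : ℕ), L ≤ 128 * B * Real.log L * Q → Q < q →
      0 ≤ lN → lN ≤ B * Real.log L → 4 * Q * lP ≤ L → 0 ≤ lY → lY ≤ lP - Real.log L / 2 →
      T0 ≤ ((r + 1) * s0) * ((r + 1) * s0 * r) ^ r * T1 → 1 ≤ T1 → T1 ≤ q ^ r →
      Real.log ((T0 + T1).factorial : ℝ) +
        T0 * ((3 * ((r + 1) * (q * (s0 + 1))) + 2 * (s0 + 1)) * Real.log 2) +
        T1 * ((r + 1) * (q * (s0 + 1)) * Real.log 2 + ((r + 1) * (q * (s0 + 1)) * lY + 2 * (s0 + 1) * L +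
          (2 * ((r + 1) * (q * (s0 + 1))) / K + 2) * lN)) <
        ((r + 1) * s0 - 1) * q * T1 * lP) : False := by
  classical
  have hBR : (1 : ℝ) ≤ B := by exact_mod_cast hB
  set y := Real.log L with hy
  have hy0 : 8192 ≤ y := by nlinarith
  have hLe : Real.exp y = L := by rw [hy, Real.exp_log (by linarith)]
  have h1 : (128 * B * y) ^ 2 ≤ L := by
    have h2 := pow_four_le_exp y (by linarith)
    rw [hLe] at h2
    have h3 : 128 * B * y ≤ y ^ 2 := by nlinarith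
    have h4 : (128 * B * y) ^ 2 ≤ (y ^ 2) ^ 2 := pow_le_pow_left₀ (by positivity) h3 2
    calc (128 * B * y) ^ 2 ≤ (y ^ 2) ^ 2 := h4
      _ = y ^ 4 := by ring
      _ ≤ L := h2
  have hBy : 0 < (64 * B * y : ℝ) := by positivity
  obtain ⟨Q, hQp, hQ1, hQ2⟩ := exists_Q (L / (64 * B * y)) (by
    rw [le_div_iff₀ hBy]
    nlinarith)
  have hQL1 : L ≤ 128 * B * y * Q := by
    rw [div_div, div_lt_iff₀ (by positivity)] at hQ1
    nlinarith
  have hQL2 : 64 * B * y * Q ≤ L := by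
    rw [le_div_iff₀ hBy] at hQ2
    nlinarith
  have hQ0 : 0 < Q := hQp.pos
  have hQbig : 128 * B * y ≤ Q := by
    by_contra h
    push Not at h
    have h5 : (0:ℝ) < 128 * B * y := by positivity
    nlinarith
  have hLQ : L ≤ (Q : ℝ) ^ 2 := by
    have h5 : (0:ℝ) ≤ Q := Nat.cast_nonneg _
    calc L ≤ 128 * B * y * Q := hQL1
      _ ≤ Q * Q := mul_le_mul_of_nonneg_right hQbig h5
      _ = (Q : ℝ) ^ 2 := by ring
  obtain ⟨Y, T, hY1, hYl, hTc, hTinj, hTp, hTc'⟩ := hcl Q hQL1 hQL2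
  have hcard : (T.image Prod.fst).card = T.card := by
    apply Finset.card_image_of_injOn
    intro x hx z hz hxz
    exact hTinj x hx z hz hxz
  obtain ⟨q, hqp, hqQ, hqQ4, hqN, n, hnT, hD⟩ := hsel Q (T.image Prod.fst) hLQ hQp (by
      intro m hm
      obtain ⟨x, hx, rfl⟩ := Finset.mem_image.1 hm
      exact (hTp x hx).1) (by rw [hcard]; exact hTc)
  have hns : ∀ i, ∃ t, (n i, t) ∈ T := by
    intro i
    obtain ⟨x, hx, hxn⟩ := Finset.mem_image.1 (hnT i)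
    exact ⟨x.2, by rw [← hxn]; exact hx⟩
  choose s hs using hns
  have hsq : (r + 1) * s0 < q := by
    have h5 : (((r + 1) * s0 : ℕ) : ℝ) < q := by
      have h6 : ((Q : ℕ) : ℝ) < q := by exact_mod_cast hqQ
      refine lt_of_le_of_lt ?_ h6
      refine le_trans ?_ hQbig
      rw [hr, hs0]
      push_cast
      nlinarith
    exact_mod_cast h5
  obtain ⟨rows, hrows, hdet, hdvd⟩ := core (K := K) ha hb hab hQ0 (by omega) (by omega) (by omega) hqp hqQ4 hqN hsq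
    (n := n) (s := s) (fun i => (hTp _ (hs i)).1) hD (fun i => (hTp _ (hs i)).2.2.2.2)
    (fun i h => by
      have h6 := (Nat.prime_dvd_prime_iff_eq hqp (hTp _ (hs i)).2.1).1 h
      have h7 := (hTp _ (hs i)).2.2.2.1
      simp only at h7 h6
      omega)
    (fun i => (hTc' _ (hs i) _ (hs 0)).1) (fun i => (hTc' _ (hs i) _ (hs 0)).2)
  have hc0 : a + b ≠ 0 := by omega
  have hPpos : 0 < modulus (a + b) Q :=
    Finset.prod_pos fun p hp => pow_pos (Nat.prime_of_mem_primeFactors hp).pos _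
  have hup := det_le rows (num a b Q K (q * (s0 + 1)) (s0 + 1) r n s) ((r + 1) * (q * (s0 + 1)))
    (2 * ((r + 1) * (q * (s0 + 1))) + 2 * (s0 + 1))
    (Real.exp ((r + 1) * (q * (s0 + 1) : ℕ) * Real.log Y + 2 * (s0 + 1 : ℕ) * Real.log (a + b : ℕ) +
      (2 * ((r + 1) * (q * (s0 + 1) : ℕ)) / K + 2) * Real.log (∏ p ∈ (a * b * (a + b)).primeFactors, p : ℕ)))
    (fun c => (hrows c).1.le) (fun c => row_le hQ0 (fun i => (hTp _ (hs i)).1.le) (hrows c)) (Real.exp_pos _).le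
    (fun c => num_le ha hb hab hQ0 (by omega) hY1 (fun i => (hTp _ (hs i)).2.2.1) (hrows c)
      (fun i p hp => (hTc' _ (hs i) _ (hs 0)).1 p hp))
  set T0 := (Ex r q ((r + 1) * s0)).card with hT0
  set T1 := (Rx r q).card with hT1
  set d := (Matrix.of fun c d => entry (num a b Q K (q * (s0 + 1)) (s0 + 1) r n s) (rows c) d).det with hd
  have hlow : (((modulus (a + b) Q : ℕ) : ℝ)) ^ (((r + 1) * s0 - 1) * q * T1) ≤ ((|d| : ℤ) : ℝ) := by
    have h8 := Int.le_of_dvd (abs_pos.2 hdet) ((dvd_abs _ _).2 hdvd)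
    have h9 : (((modulus (a + b) Q : ℤ) ^ (((r + 1) * s0 - 1) * q * T1) : ℤ) : ℝ) ≤ ((|d| : ℤ) : ℝ) := by
      exact_mod_cast h8
    simpa using h9
  have hPR : (0 : ℝ) < (modulus (a + b) Q : ℕ) := by exact_mod_cast hPpos
  have hlog := Real.log_le_log (pow_pos hPR _) (hlow.trans hup)
  have hT1pos : 1 ≤ T1 := by
    rw [hT1, Nat.one_le_iff_ne_zero, Finset.card_ne_zero]
    refine ⟨fun _ => 0, ?_⟩
    simp [Rx]
  have hnum' := hnum (Real.log (modulus (a + b) Q : ℕ)) (Real.log Y)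
    (Real.log (∏ p ∈ (a * b * (a + b)).primeFactors, p : ℕ)) Q q T0 T1 hQL1 hqQ (Real.log_natCast_nonneg _) (by
      have h10 := Real.log_le_log (by exact_mod_cast rad_pos _) hrad
      rwa [Real.log_pow] at h10) (by
      rw [hL]
      exact log_modulus_le hc0) (Real.log_natCast_nonneg _) hYl (card_Ex_le (by omega) hqp.pos) hT1pos
      (card_Rx_le (by omega) hqp.pos)
  have hlog2 : Real.log (((T0 + T1).factorial : ℝ) *
      (2 ^ ((r + 1) * (q * (s0 + 1)) + (2 * ((r + 1) * (q * (s0 + 1))) + 2 * (s0 + 1)))) ^ T0 *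
        (2 ^ ((r + 1) * (q * (s0 + 1))) * Real.exp ((r + 1) * (q * (s0 + 1) : ℕ) * Real.log Y +
          2 * (s0 + 1 : ℕ) * Real.log (a + b : ℕ) +
      (2 * ((r + 1) * (q * (s0 + 1) : ℕ)) / K + 2) * Real.log (∏ p ∈ (a * b * (a + b)).primeFactors, p : ℕ))) ^ T1) =
      Real.log ((T0 + T1).factorial : ℝ) +
        T0 * ((3 * ((r + 1) * (q * (s0 + 1))) + 2 * (s0 + 1)) * Real.log 2) +
        T1 * ((r + 1) * (q * (s0 + 1)) * Real.log 2 + ((r + 1) * (q * (s0 + 1)) * Real.log Y + 2 * (s0 + 1) * L +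
          (2 * ((r + 1) * (q * (s0 + 1))) / K + 2) * Real.log (∏ p ∈ (a * b * (a + b)).primeFactors, p : ℕ))) := by
    have hf : ((T0 + T1).factorial : ℝ) ≠ 0 := by exact_mod_cast Nat.factorial_ne_zero _
    rw [Real.log_mul (by positivity) (by positivity), Real.log_mul hf (by positivity), Real.log_pow, Real.log_pow,
      Real.log_pow, Real.log_mul (by positivity) (Real.exp_pos _).ne', Real.log_pow, Real.log_exp, ← hL]
    push_cast
    ring
  rw [hlog2, Real.log_pow] at hlog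
  refine absurd hlog (not_le.2 ?_)
  refine hnum'.trans_le (le_of_eq ?_)
  have h11 : 1 ≤ (r + 1) * s0 := Nat.mul_pos (Nat.succ_pos r) (by omega)
  push_cast [Nat.cast_sub h11]
  ring

/-- The theorem, uniformly in `B`. -/
theorem main_uniform : ∃ D : ℕ, ∀ B a b : ℕ, 1 ≤ B → 0 < a → 0 < b → a.Coprime b →
    ((B + 1 : ℕ) : ℝ) ^ (D * B) ≤ Real.log (Real.log (a + b : ℕ)) →
    (Real.log (a + b : ℕ)) ^ B < ((∏ p ∈ (a * b * (a + b)).primeFactors, p : ℕ) : ℝ) := by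
  obtain ⟨D1, hD1⟩ := Pool.Agent.Helper94.ZE.exists_clusterU_of Pool.Agent.Helper62.ZE.pow_omega_leU
  obtain ⟨D2, hD2⟩ := Pool.Agent.Helper84.ZE.exists_primeU
  obtain ⟨D3, hD3⟩ := Pool.Agent.Helper48.ZE.final_ineqU
  refine ⟨D1 + D2 + D3 + 14, fun B a b hB ha hb hab hDL => ?_⟩
  have hb2 : (2 : ℝ) ≤ ((B + 1 : ℕ) : ℝ) := by
    have : 2 ≤ B + 1 := by omega
    exact_mod_cast this
  have hb1 : (1 : ℝ) ≤ ((B + 1 : ℕ) : ℝ) := by linarith
  set L := Real.log (a + b : ℕ) with hL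
  have hLn : 0 ≤ L := Real.log_natCast_nonneg _
  have hmono : ∀ m : ℕ, m ≤ (D1 + D2 + D3 + 14) * B → ((B + 1 : ℕ) : ℝ) ^ m ≤ Real.log L := fun m hm =>
    (pow_le_pow_right₀ hb1 hm).trans hDL
  have hlog1 : 1 ≤ Real.log L := by simpa using hmono 0 (Nat.zero_le _)
  have hL1 : 1 ≤ L := by
    by_contra h
    push Not at h
    have := Real.log_nonpos hLn h.le
    linarith
  have h8192 : 8192 * (B : ℝ) ≤ Real.log L := by
    have h1 : (8192 * (B : ℝ)) ≤ ((B + 1 : ℕ) : ℝ) ^ 14 := by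
      have h2 : (8192 : ℝ) ≤ ((B + 1 : ℕ) : ℝ) ^ 13 := by
        calc (8192 : ℝ) = 2 ^ 13 := by norm_num
          _ ≤ _ := pow_le_pow_left₀ (by norm_num) hb2 13
      have h3 : (B : ℝ) ≤ ((B + 1 : ℕ) : ℝ) := by exact_mod_cast Nat.le_succ B
      calc 8192 * (B : ℝ) ≤ ((B + 1 : ℕ) : ℝ) ^ 13 * ((B + 1 : ℕ) : ℝ) :=
            mul_le_mul h2 h3 (Nat.cast_nonneg _) (by positivity)
        _ = _ := by ring
    exact h1.trans (hmono 14 (by nlinarith))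
  by_contra hlt
  push Not at hlt
  obtain ⟨r, hr⟩ : ∃ r, r + 1 = 2048 * B := ⟨2048 * B - 1, by omega⟩
  have hNne : a * b * (a + b) ≠ 0 := by positivity
  refine main_core (B := B) (r := r) (s0 := 512 * B) (K := 16 * B) hB hr rfl rfl ha hb hab hL h8192 hL1 hlt ?_ ?_ ?_
  · intro Q h1 h2
    exact hD1 B a b Q L hB ha hb hab hL hL1 (hmono _ (Nat.mul_le_mul_right B (by omega))) hlt h1 h2
  · intro Q T hLQ hQ hT hTc
    have hQ0 : (0 : ℝ) < Q := by exact_mod_cast hQ.pos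
    refine hD2 B r Q T (a * b * (a + b)) hB hr ?_ hQ hT hTc hNne ?_
    · have h1 : Real.log L ≤ 2 * Real.log Q := by
        have := Real.log_le_log (by linarith) hLQ
        rwa [Real.log_pow] at this
      have h2 : 2 * ((B + 1 : ℕ) : ℝ) ^ (D2 * B) ≤ ((B + 1 : ℕ) : ℝ) ^ (D2 * B + 1) := by
        rw [pow_succ, mul_comm]
        exact mul_le_mul_of_nonneg_left hb2 (by positivity)
      have h3 := hmono (D2 * B + 1) (by nlinarith)
      linarith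
    · have h4 : ((∏ p ∈ (a * b * (a + b)).primeFactors, p : ℕ) : ℝ) ≤ ((Q ^ (2 * B) : ℕ) : ℝ) := by
        refine hlt.trans ?_
        rw [Nat.cast_pow, pow_mul]
        exact pow_le_pow_left₀ hLn hLQ B
      exact_mod_cast h4
  · intro lP lY lN Q q T0 T1 h1 h2 h3 h4 h5 h6 h7 h8 h9 h10
    exact hD3 B L lP lY lN Q q r (512 * B) (16 * B) T0 T1 hB hL1 (hmono _ (Nat.mul_le_mul_right B (by omega))) hr rfl rfl
      h1 h2 h3 h4 h5 h6 h7 h8 h9 h10

end Pool.Agent.Helper18.ZE
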