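import Mathlib

/-!
# Project ZE: definitions

`r + 1 = G` is the number of the members of the cluster. A row is a pair `(e, f)`, `e : Fin (r + 1) → ℕ`, `f : ℕ`.
-/

set_option autoImplicit false

namespace Pool.Agent.Helper18.ZE

open Finset

/-- A row: the exponents `e i` of the members of the cluster, and the exponent `f` of `κ`. -/
abbrev Row (r : ℕ) := (Fin (r + 1) → ℕ) × ℕ

/-- The indices `(j, l)` of the exact columns: `|j| + q l < s q`. -/
def Ex (r q s : ℕ) : Finset ((Fin r → ℕ) × ℕ) :=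
  ((Fintype.piFinset fun _ => range (s * q)) ×ˢ range s).filter (fun p => ∑ i, p.1 i + q * p.2 < s * q)

/-- The indices `a` of the other columns: `a i ≤ (q - 1) / r`, so `|a| < q`. -/
def Rx (r q : ℕ) : Finset (Fin r → ℕ) := Fintype.piFinset fun _ => range ((q - 1) / r + 1)

/-- All columns. -/
abbrev Col (r q s : ℕ) := (Ex r q s) ⊕ (Rx r q)

/-- The product of the binomials of the exponents `e 1, …, e r`. -/
def bin {r : ℕ} (v : Row r) (j : Fin r → ℕ) : ℕ := ∏ i : Fin r, (v.1 i.succ).choose (j i)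

/-- The entry of the row `v` in a column; `N v` is the number which belongs to the row `v`. -/
def entry {r q s : ℕ} {R : Type} [CommRing R] (N : Row r → R) (v : Row r) : Col r q s → R
  | .inl p => (bin v p.1.1 * v.2.choose p.1.2 : ℕ)
  | .inr a => N v * (bin v a.1 : ℕ)

/-- `Q` times the coefficient `t` of the vector `k` in the exponents of the number which belongs to the row `v`;
`μ = A + M - f`, where `A = (r + 1) C`. -/
def tq (r Q C M : ℕ) (n : Fin (r + 1) → ℕ) (v : Row r) : ℤ :=
  ∑ i, ((v.1 i : ℤ) - C) * n i - Q * (((r + 1) * C + M : ℕ) - (v.2 : ℤ))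

/-- The rows which are used: the sum of the exponents is `A = (r + 1) C`, and `|t| ≤ M`. -/
def IsRow (r Q C M : ℕ) (n : Fin (r + 1) → ℕ) (v : Row r) : Prop :=
  ∑ i, v.1 i = (r + 1) * C ∧ |tq r Q C M n v| ≤ M * Q

/-- The numbers `(q n i + b) / Q` modulo `1` are in the arcs `[i / (r + 1), (i + 1) / (r + 1))`, for some shift `b`. -/
def Dense (r Q q : ℕ) (n : Fin (r + 1) → ℕ) : Prop :=
  ∃ b : ℕ, ∀ i : Fin (r + 1), i.val * Q ≤ (r + 1) * ((q * n i + b) % Q) ∧
    (r + 1) * ((q * n i + b) % Q) < (i.val + 1) * Q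

/-! ## The triple -/

/-- The exponent of the prime `p` in `a / b`. -/
def kv (a b p : ℕ) : ℤ := (a.factorization p : ℤ) - b.factorization p

/-- The rounded exponents of `(a / b) ^ (n / Q)`. -/
def wv (a b Q n p : ℕ) : ℤ := (n * kv a b p) / Q

/-- The box of the fractional parts. -/
def box (a b Q K n p : ℕ) : ℤ := (K * ((n * kv a b p) % Q)) / Q

/-- The number `s * (a / b) ^ (n / Q)` (rounded exponents), multiplied by a constant to have no denominator. -/
def theta (a b Q n s : ℕ) : ℕ := s * ∏ p ∈ (a * b).primeFactors, p ^ (wv a b Q n p + |kv a b p|).toNat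

/-- The modulus. -/
def modulus (c Q : ℕ) : ℕ := ∏ p ∈ c.primeFactors, p ^ (c.factorization p / (4 * Q))

/-- The exponent of the prime `p` in the number which belongs to the row `v`. -/
def expo (a b Q K C M r : ℕ) (n : Fin (r + 1) → ℕ) (v : Row r) (p : ℕ) : ℤ :=
  M * |kv a b p| + ((r + 1) * C / K + 1 : ℕ) + ∑ i, ((v.1 i : ℤ) - C) * wv a b Q (n i) p -
    (((r + 1) * C + M : ℕ) - (v.2 : ℤ)) * kv a b p

/-- The number which belongs to the row `v`. -/
def num (a b Q K C M r : ℕ) (n s : Fin (r + 1) → ℕ) (v : Row r) : ℤ :=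
  (-1) ^ v.2 * ((∏ i, s i ^ v.1 i) * ∏ p ∈ (a * b).primeFactors, p ^ (expo a b Q K C M r n v p).toNat : ℕ)

end Pool.Agent.Helper18.ZE
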