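import Pool.Agent.Helper18.ZE.Defs

/-!
# Frame of ZE: the statements of the pieces (this file contains `sorry`)

Every piece goes into its own file `HelperN/ZE/….lean`, which imports `Helper18.ZE.Defs` and not this file.
-/

set_option autoImplicit false

namespace Pool.Agent.Helper18.ZE.Frame

open Finset Pool.Agent.Helper18.ZE

/-! ## Z: the zero estimate modulo `q`. `s = (r + 1) s0`. -/

/-- Z1: a polynomial of degree `D < q` in the coordinates `x`, on the boxes spanned by the columns of a unimodular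
matrix `V`: in one of the boxes `{base γ + V m : 0 ≤ m ≤ γ}`, `|γ| = D`, it has a value different from `0`. -/
theorem box_ne_zero {ι : Type} [Fintype ι] [DecidableEq ι] {q : ℕ} [Fact q.Prime]
    (p : MvPolynomial ι (ZMod q)) (hp : p ≠ 0) (hq : p.totalDegree < q) (V : Matrix ι ι ℤ) (hV : IsUnit V.det)
    (base : (ι → ℕ) → ι → ℤ) :
    ∃ γ m : ι → ℕ, ∑ i, γ i = p.totalDegree ∧ (∀ i, m i ≤ γ i) ∧
      MvPolynomial.eval (fun i => ((base γ i + ∑ k, V i k * m k : ℤ) : ZMod q)) p ≠ 0 := by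
  sorry

/-- Z2: a polynomial of degree `< s` plus `d w ^ m`, `w ≠ 1`, `d ≠ 0`, is different from `0` for some `m ≤ s`. -/
theorem line_ne_zero {F : Type} [Field F] (p : Polynomial F) (s : ℕ) (hp : p.degree < s) (d w : F) (hd : d ≠ 0)
    (hw : w ≠ 1) : ∃ m ≤ s, p.eval (m : F) + d * w ^ m ≠ 0 := by
  sorry

/-- Z3: after division by `q` (Lucas). The function in one residue class is a polynomial of degree `< s` plus a
constant times the character, and not both are zero. `e i = e0 i + q * e' i` for `i = 1, …, r`. -/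
theorem class_function {r q s : ℕ} [Fact q.Prime] (hr : 1 ≤ r) (hs : s < q) (x : Col r q s → ZMod q) (hx : x ≠ 0) :
    ∃ (e0 : Fin r → ℕ) (p : MvPolynomial (Option (Fin r)) (ZMod q)) (d : ZMod q), (∀ i, e0 i < q) ∧
      (p ≠ 0 ∨ d ≠ 0) ∧ (p ≠ 0 → p.totalDegree < s) ∧
      ∀ (N : Row r → ZMod q) (v : Row r) (e' : Fin r → ℕ), (∀ i : Fin r, v.1 i.succ = e0 i + q * e' i) →
        ∑ c, x c * entry N v c =
          MvPolynomial.eval (fun o => o.elim (v.2 : ZMod q) (fun i => (e' i : ZMod q))) p + N v * d := by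
  sorry

/-- Z4: the zero estimate. -/
theorem zero_estimate {r q Q s0 : ℕ} [Fact q.Prime] (hr : 1 ≤ r) (hQ : 0 < Q) (n : Fin (r + 1) → ℕ)
    (hn : ∀ i, n i ≤ Q) (hβ : Dense r Q q n) (hs0 : 1 ≤ s0) (hs : (r + 1) * s0 < q) (θ : Fin (r + 1) → ZMod q)
    (hθ : ∀ i, θ i ≠ 0) (κ u : ZMod q) (hκ0 : κ ≠ 0) (hκ : κ ≠ 1) (hu : u ≠ 0)
    (x : Col r q ((r + 1) * s0) → ZMod q) (hx : x ≠ 0) :
    ∃ v : Row r, IsRow r Q (q * (s0 + 1)) (s0 + 1) n v ∧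
      ∑ c, x c * entry (fun v => u * (∏ i, θ i ^ v.1 i) * κ ^ v.2) v c ≠ 0 := by
  sorry

/-! ## LA: linear algebra -/

theorem exists_rows {F ι X : Type} [Field F] [Fintype ι] [DecidableEq ι] (S : Set X) (f : X → ι → F)
    (h : ∀ x : ι → F, x ≠ 0 → ∃ v ∈ S, ∑ c, x c * f v c ≠ 0) :
    ∃ g : ι → X, (∀ c, g c ∈ S) ∧ (Matrix.of fun c d => f (g c) d).det ≠ 0 := by
  sorry

/-! ## D: divisibility -/

/-- D1: in a commutative ring with `π ^ ((s - 1) q) = 0`, the other columns are combinations of the exact columns. -/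
theorem span_exact {r q s : ℕ} (hq : 0 < q) (hr : 1 ≤ r) (hs : 1 ≤ s) {R : Type} [CommRing R] (π : R)
    (hπ : π ^ ((s - 1) * q) = 0) (u κ : R) (ρ : Fin r → R) (hρ : ∀ i, π ∣ ρ i - 1) (hκ : π ^ q ∣ κ - 1)
    (a : Rx r q) :
    ∃ x : Ex r q s → R, ∀ v : Row r, (u * (∏ i : Fin r, ρ i ^ v.1 i.succ) * κ ^ v.2) * (bin v a.1 : R) =
      ∑ p : Ex r q s, x p * ((bin v p.1.1 * v.2.choose p.1.2 : ℕ) : R) := by
  sorry

/-- D2: the determinant is divisible by `P ^ ((s - 1) q T1)`. -/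
theorem dvd_det {r q s : ℕ} (hq : 0 < q) (hr : 1 ≤ r) (hs : 1 ≤ s) (P : ℕ) (N : Row r → ℤ)
    (u κ : ZMod (P ^ ((s - 1) * q))) (ρ : Fin r → ZMod (P ^ ((s - 1) * q)))
    (hρ : ∀ i, (P : ZMod (P ^ ((s - 1) * q))) ∣ ρ i - 1) (hκ : (P : ZMod (P ^ ((s - 1) * q))) ^ q ∣ κ - 1)
    (rows : Col r q s → Row r)
    (hN : ∀ c, (N (rows c) : ZMod (P ^ ((s - 1) * q))) =
      u * (∏ i : Fin r, ρ i ^ (rows c).1 i.succ) * κ ^ (rows c).2) :
    ((P : ℤ) ^ ((s - 1) * q * (Rx r q).card)) ∣ (Matrix.of fun c d => entry N (rows c) d).det := by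
  sorry

/-! ## S: size of the determinant -/

theorem det_le {r q s : ℕ} (rows : Col r q s → Row r) (N : Row r → ℤ) (A F : ℕ) (H : ℝ)
    (hA : ∀ c, ∑ i, (rows c).1 i ≤ A) (hF : ∀ c, (rows c).2 ≤ F) (hH : 0 ≤ H)
    (hN : ∀ c, (|N (rows c)| : ℤ) ≤ H) :
    (|(Matrix.of fun c d => entry N (rows c) d).det| : ℤ) ≤
      (((Ex r q s).card + (Rx r q).card).factorial : ℝ) * (2 ^ (A + F)) ^ (Ex r q s).card *
        (2 ^ A * H) ^ (Rx r q).card := by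
  sorry

/-- S2: the numbers of the columns. -/
theorem card_Ex_le {r q s : ℕ} (hr : 1 ≤ r) (hq : 0 < q) :
    (Ex r q s).card ≤ s * (s * r) ^ r * (Rx r q).card := by
  sorry

theorem card_Rx_le {r q : ℕ} (hr : 1 ≤ r) (hq : 0 < q) : (Rx r q).card ≤ q ^ r := by
  sorry

/-! ## N: the numbers `num` -/

/-- N0: rows have `f ≤ 2 A + 2 M`. -/
theorem row_le {r Q C M : ℕ} (hQ : 0 < Q) {n : Fin (r + 1) → ℕ} (hn : ∀ i, n i ≤ Q) {v : Row r}
    (hv : IsRow r Q C M n v) : v.2 ≤ 2 * ((r + 1) * C) + 2 * M := by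
  sorry

/-- N1: the exponents are not negative. -/
theorem expo_nonneg {a b Q K C M r : ℕ} (hQ : 0 < Q) (hK : 0 < K) {n : Fin (r + 1) → ℕ} {v : Row r}
    (hv : IsRow r Q C M n v) (p : ℕ) (hbox : ∀ i, box a b Q K (n i) p = box a b Q K (n 0) p) :
    0 ≤ expo a b Q K C M r n v p := by
  sorry

/-- N2: the size. -/
theorem num_le {a b Q K C M r Y : ℕ} (ha : 0 < a) (hb : 0 < b) (hab : a.Coprime b) (hQ : 0 < Q) (hK : 0 < K)
    (hY : 1 ≤ Y) {n s : Fin (r + 1) → ℕ} (hs : ∀ i, s i ≤ Y) {v : Row r} (hv : IsRow r Q C M n v)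
    (hbox : ∀ i, ∀ p ∈ (a * b).primeFactors, box a b Q K (n i) p = box a b Q K (n 0) p) :
    (|num a b Q K C M r n s v| : ℤ) ≤ Real.exp ((r + 1) * C * Real.log Y + 2 * M * Real.log (a + b : ℕ) +
      (2 * ((r + 1) * C) / K + 2) * Real.log (∏ p ∈ (a * b * (a + b)).primeFactors, p : ℕ)) := by
  sorry

/-- N3: in a ring in which the primes dividing `a b` are units, the numbers `num` are the values of a character. -/
theorem num_eq {a b Q K C M r : ℕ} (ha : 0 < a) (hb : 0 < b) (hab : a.Coprime b) (hQ : 0 < Q) (hK : 0 < K)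
    {n s : Fin (r + 1) → ℕ} (hn : ∀ i, n i ≤ Q)
    (hbox : ∀ i, ∀ p ∈ (a * b).primeFactors, box a b Q K (n i) p = box a b Q K (n 0) p)
    {R : Type} [CommRing R] (hR : ∀ p ∈ (a * b).primeFactors, IsUnit (p : R)) (κ : R) (hκ : κ * b = -a) :
    ∃ u : R, IsUnit u ∧ ∀ v : Row r, IsRow r Q C M n v →
      (num a b Q K C M r n s v : R) = u * (∏ i, (theta a b Q (n i) (s i) : R) ^ v.1 i) * κ ^ v.2 := by
  sorry

/-! ## P: the modulus -/

theorem modulus_pow_dvd {c Q q : ℕ} (hc : c ≠ 0) (hq : q ≤ 4 * Q) : modulus c Q ^ q ∣ c := by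
  sorry

theorem log_modulus_le {c Q : ℕ} (hc : c ≠ 0) : 4 * Q * Real.log (modulus c Q) ≤ Real.log c := by
  sorry

theorem le_log_modulus {c Q : ℕ} (hc : c ≠ 0) (hQ : 0 < Q) :
    Real.log c - 4 * Q * Real.log (∏ p ∈ c.primeFactors, p : ℕ) ≤ 4 * Q * Real.log (modulus c Q) := by
  sorry

/-! ## C: primes -/

theorem card_primes : ∃ x0 : ℕ, ∀ x : ℕ, x0 ≤ x →
    (x : ℝ) ≤ Real.log x * ((Finset.Ioc x (4 * x)).filter Nat.Prime).card := by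
  sorry

/-- `K ^ ω(N)` is small. -/
theorem pow_omega_le (K B : ℕ) : ∃ L0 : ℝ, ∀ (L : ℝ) (N : ℕ), L0 ≤ L → N ≠ 0 →
    (∏ p ∈ N.primeFactors, p : ℕ) ≤ L ^ B → (K : ℝ) ^ N.primeFactors.card ≤ L ^ (1 / 8 : ℝ) := by
  sorry

/-! ## SEL: the choice of `q` -/

theorem exists_prime (r B : ℕ) : ∃ Q0 : ℕ, ∀ (Q : ℕ) (T : Finset ℕ) (N : ℕ), Q0 ≤ Q → Q.Prime → (∀ n ∈ T, n < Q) →
    Q ≤ T.card ^ 9 → N ≠ 0 → (∏ p ∈ N.primeFactors, p : ℕ) ≤ Q ^ B →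
    ∃ q : ℕ, q.Prime ∧ Q < q ∧ q ≤ 4 * Q ∧ ¬ q ∣ N ∧ ∃ n : Fin (r + 1) → ℕ, (∀ i, n i ∈ T) ∧ Dense r Q q n := by
  sorry

/-! ## CL: the cluster -/

theorem exists_cluster (B K : ℕ) (hB : 1 ≤ B) (hK : 1 ≤ K) : ∃ L0 : ℝ, ∀ (a b Q : ℕ) (L : ℝ), 0 < a → 0 < b → a.Coprime b →
    L = Real.log (a + b : ℕ) → L0 ≤ L → (∏ p ∈ (a * b * (a + b)).primeFactors, p : ℕ) ≤ L ^ B →
    L ≤ 128 * B * Real.log L * Q → 64 * B * Real.log L * Q ≤ L →
    ∃ (Y : ℕ) (T : Finset (ℕ × ℕ)), 1 ≤ Y ∧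
      Real.log Y ≤ Real.log (modulus (a + b) Q) - Real.log L / 2 ∧ Q ≤ T.card ^ 9 ∧
      (∀ x ∈ T, ∀ y ∈ T, x.1 = y.1 → x = y) ∧
      (∀ x ∈ T, x.1 < Q ∧ x.2.Prime ∧ x.2 ≤ Y ∧ 4 * Q < x.2 ∧ x.2.Coprime (a * b * (a + b))) ∧
      ∀ x ∈ T, ∀ y ∈ T, (∀ p ∈ (a * b).primeFactors, box a b Q K x.1 p = box a b Q K y.1 p) ∧
        theta a b Q x.1 x.2 ≡ theta a b Q y.1 y.2 [MOD modulus (a + b) Q] := by
  sorry

/-! ## NUM: the final inequality; `r + 1 = 2048 B`, `s0 = 512 B`, `K = 16 B` -/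

theorem final_ineq (B : ℕ) (hB : 1 ≤ B) : ∃ L0 : ℝ, ∀ (L lP lY lN : ℝ) (Q q r s0 K T0 T1 : ℕ), L0 ≤ L →
    r + 1 = 2048 * B → s0 = 512 * B → K = 16 * B → L ≤ 128 * B * Real.log L * Q → Q < q →
    0 ≤ lN → lN ≤ B * Real.log L → 4 * Q * lP ≤ L → 0 ≤ lY → lY ≤ lP - Real.log L / 2 →
    T0 ≤ ((r + 1) * s0) * ((r + 1) * s0 * r) ^ r * T1 → 1 ≤ T1 → T1 ≤ q ^ r →
    Real.log ((T0 + T1).factorial : ℝ) +
      T0 * ((3 * ((r + 1) * (q * (s0 + 1))) + 2 * (s0 + 1)) * Real.log 2) +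
      T1 * ((r + 1) * (q * (s0 + 1)) * Real.log 2 + ((r + 1) * (q * (s0 + 1)) * lY + 2 * (s0 + 1) * L +
        (2 * ((r + 1) * (q * (s0 + 1))) / K + 2) * lN)) <
      ((r + 1) * s0 - 1) * q * T1 * lP := by
  sorry

end Pool.Agent.Helper18.ZE.Frame
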