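import Pool.Agent.Helper18.ZE.Defs

/-!
# Frame of ZE, uniform forms (this file contains `sorry`)

The condition on `L` is explicit: `(B + 1) ^ (D * B) ≤ log L` with a constant `D` which does not depend on `B`. With
these forms the theorem is `log c ≤ exp (C log N logloglog N / loglog N)`, `N = rad (abc)`; the forms of `Frame`
are special cases.
-/

set_option autoImplicit false

namespace Pool.Agent.Helper18.ZE.FrameU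

open Finset Pool.Agent.Helper18.ZE

theorem pow_omega_leU : ∃ D : ℕ, ∀ (B : ℕ) (L : ℝ) (N : ℕ), 1 ≤ B → 1 ≤ L → ((B + 1 : ℕ) : ℝ) ^ (D * B) ≤ Real.log L →
    N ≠ 0 → (∏ p ∈ N.primeFactors, p : ℕ) ≤ L ^ B → ((16 * B : ℕ) : ℝ) ^ N.primeFactors.card ≤ L ^ (1 / 8 : ℝ) := by
  sorry

/-- `r + 1 = 2048 B`; the squarefree part of `N` is at most `Q ^ (2 B)`. -/
theorem exists_primeU : ∃ D : ℕ, ∀ (B r Q : ℕ) (T : Finset ℕ) (N : ℕ), 1 ≤ B → r + 1 = 2048 * B →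
    ((B + 1 : ℕ) : ℝ) ^ (D * B) ≤ Real.log Q → Q.Prime → (∀ n ∈ T, n < Q) →
    Q ≤ T.card ^ 9 → N ≠ 0 → (∏ p ∈ N.primeFactors, p : ℕ) ≤ Q ^ (2 * B) →
    ∃ q : ℕ, q.Prime ∧ Q < q ∧ q ≤ 4 * Q ∧ ¬ q ∣ N ∧ ∃ n : Fin (r + 1) → ℕ, (∀ i, n i ∈ T) ∧ Dense r Q q n := by
  sorry

/-- `K = 16 B`. -/
theorem exists_clusterU : ∃ D : ℕ, ∀ (B a b Q : ℕ) (L : ℝ), 1 ≤ B → 0 < a → 0 < b → a.Coprime b →
    L = Real.log (a + b : ℕ) → 1 ≤ L → ((B + 1 : ℕ) : ℝ) ^ (D * B) ≤ Real.log L →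
    (∏ p ∈ (a * b * (a + b)).primeFactors, p : ℕ) ≤ L ^ B →
    L ≤ 128 * B * Real.log L * Q → 64 * B * Real.log L * Q ≤ L →
    ∃ (Y : ℕ) (T : Finset (ℕ × ℕ)), 1 ≤ Y ∧
      Real.log Y ≤ Real.log (modulus (a + b) Q) - Real.log L / 2 ∧ Q ≤ T.card ^ 9 ∧
      (∀ x ∈ T, ∀ y ∈ T, x.1 = y.1 → x = y) ∧
      (∀ x ∈ T, x.1 < Q ∧ x.2.Prime ∧ x.2 ≤ Y ∧ 4 * Q < x.2 ∧ x.2.Coprime (a * b * (a + b))) ∧
      ∀ x ∈ T, ∀ y ∈ T, (∀ p ∈ (a * b).primeFactors, box a b Q (16 * B) x.1 p = box a b Q (16 * B) y.1 p) ∧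
        theta a b Q x.1 x.2 ≡ theta a b Q y.1 y.2 [MOD modulus (a + b) Q] := by
  sorry

theorem final_ineqU : ∃ D : ℕ, ∀ (B : ℕ) (L lP lY lN : ℝ) (Q q r s0 K T0 T1 : ℕ), 1 ≤ B → 1 ≤ L →
    ((B + 1 : ℕ) : ℝ) ^ (D * B) ≤ Real.log L →
    r + 1 = 2048 * B → s0 = 512 * B → K = 16 * B → L ≤ 128 * B * Real.log L * Q → Q < q →
    0 ≤ lN → lN ≤ B * Real.log L → 4 * Q * lP ≤ L → 0 ≤ lY → lY ≤ lP - Real.log L / 2 →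
    T0 ≤ ((r + 1) * s0) * ((r + 1) * s0 * r) ^ r * T1 → 1 ≤ T1 → T1 ≤ q ^ r →
    Real.log ((T0 + T1).factorial : ℝ) +
      T0 * ((3 * ((r + 1) * (q * (s0 + 1))) + 2 * (s0 + 1)) * Real.log 2) +
      T1 * ((r + 1) * (q * (s0 + 1)) * Real.log 2 + ((r + 1) * (q * (s0 + 1)) * lY + 2 * (s0 + 1) * L +
        (2 * ((r + 1) * (q * (s0 + 1))) / K + 2) * lN)) <
      ((r + 1) * s0 - 1) * q * T1 * lP := by
  sorry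

end Pool.Agent.Helper18.ZE.FrameU
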