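import Pool.Agent.Helper1.ZE.Estimate
import Pool.Agent.Helper36.ZE.Rows
import Pool.Agent.Helper94.ZE.DetDvd2
import Pool.Agent.Helper41.ZE.N3
import Pool.Agent.Helper78.ZE.P

/-!
# ZE: the assembly
-/

set_option autoImplicit false

namespace Pool.Agent.Helper18.ZE

open Finset Pool.Agent.Helper1.ZE Pool.Agent.Helper36.ZE Pool.Agent.Helper94.ZE Pool.Agent.Helper41.ZE
  Pool.Agent.Helper78.ZE

/-- The prime `Q`. -/
theorem exists_Q (x : ℝ) (hx : 2 ≤ x) : ∃ Q : ℕ, Q.Prime ∧ x / 2 < Q ∧ (Q : ℝ) ≤ x := by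
  have h0 : (0 : ℝ) ≤ x / 2 := by linarith
  have h1 : ⌊x / 2⌋₊ ≠ 0 := by
    intro h
    have := Nat.lt_floor_add_one (x / 2)
    rw [h] at this
    norm_num at this
    linarith
  obtain ⟨Q, hQ, h2, h3⟩ := Nat.exists_prime_lt_and_le_two_mul ⌊x / 2⌋₊ h1
  refine ⟨Q, hQ, ?_, ?_⟩
  · exact (Nat.lt_floor_add_one _).trans_le (by exact_mod_cast h2)
  · have h4 : (Q : ℝ) ≤ 2 * (⌊x / 2⌋₊ : ℝ) := by exact_mod_cast h3
    have h5 := Nat.floor_le h0
    linarith

theorem prod_shift {R : Type} [CommRing R] {r : ℕ} (θ : Fin (r + 1) → Rˣ) (e : Fin (r + 1) → ℕ) (A : ℕ)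
    (he : ∑ i, e i = A) :
    (∏ i, ((θ i : Rˣ) : R) ^ e i) = ((θ 0 ^ A : Rˣ) : R) * ∏ i : Fin r, (((θ i.succ * (θ 0)⁻¹ : Rˣ)) : R) ^ e i.succ := by
  have h1 : (∏ i, θ i ^ e i) = θ 0 ^ A * ∏ i : Fin r, (θ i.succ * (θ 0)⁻¹) ^ e i.succ := by
    have h3 : ∏ i : Fin r, (θ i.succ * (θ 0)⁻¹) ^ e i.succ = (∏ i : Fin r, θ i.succ ^ e i.succ) * (θ 0 ^ (∑ i : Fin r, e i.succ))⁻¹ := by
      simp only [mul_pow, inv_pow]
      rw [Finset.prod_mul_distrib, Finset.prod_inv_distrib, Finset.prod_pow_eq_pow_sum]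
    rw [Fin.prod_univ_succ, ← he, Fin.sum_univ_succ, pow_add, h3, mul_comm (∏ i : Fin r, θ i.succ ^ e i.succ), ← mul_assoc,
      mul_assoc (θ 0 ^ e 0), mul_inv_cancel, mul_one]
  have h2 := congrArg (fun x : Rˣ => (x : R)) h1
  simpa using h2

/-- The determinant is different from `0` and divisible by a high power of `P`. -/
theorem core {a b Q q r s0 K : ℕ} (ha : 0 < a) (hb : 0 < b) (hab : a.Coprime b) (hQ : 0 < Q) (hr : 1 ≤ r) (hK : 0 < K)
    (hs0 : 1 ≤ s0) (hq : q.Prime) (hqQ : q ≤ 4 * Q) (hqN : ¬ q ∣ a * b * (a + b)) (hsq : (r + 1) * s0 < q)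
    {n s : Fin (r + 1) → ℕ} (hn : ∀ i, n i < Q) (hD : Dense r Q q n) (hsc : ∀ i, (s i).Coprime (a * b * (a + b)))
    (hsq' : ∀ i, ¬ q ∣ s i)
    (hbox : ∀ i, ∀ p ∈ (a * b).primeFactors, box a b Q K (n i) p = box a b Q K (n 0) p)
    (hθ : ∀ i, theta a b Q (n i) (s i) ≡ theta a b Q (n 0) (s 0) [MOD modulus (a + b) Q]) :
    ∃ rows : Col r q ((r + 1) * s0) → Row r, (∀ c, IsRow r Q (q * (s0 + 1)) (s0 + 1) n (rows c)) ∧
      (Matrix.of fun c d => entry (num a b Q K (q * (s0 + 1)) (s0 + 1) r n s) (rows c) d).det ≠ 0 ∧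
      ((modulus (a + b) Q : ℤ) ^ (((r + 1) * s0 - 1) * q * (Rx r q).card)) ∣
        (Matrix.of fun c d => entry (num a b Q K (q * (s0 + 1)) (s0 + 1) r n s) (rows c) d).det := by
  classical
  have : Fact q.Prime := ⟨hq⟩
  have hn' : ∀ i, n i ≤ Q := fun i => (hn i).le
  have hqa : ¬ q ∣ a := fun h => hqN (dvd_mul_of_dvd_left (dvd_mul_of_dvd_left h b) _)
  have hqb : ¬ q ∣ b := fun h => hqN (dvd_mul_of_dvd_left (dvd_mul_of_dvd_right h a) _)
  have hqc : ¬ q ∣ a + b := fun h => hqN (dvd_mul_of_dvd_right h _)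
  have ha0 : (a : ZMod q) ≠ 0 := by rwa [Ne, ZMod.natCast_eq_zero_iff]
  have hb0 : (b : ZMod q) ≠ 0 := by rwa [Ne, ZMod.natCast_eq_zero_iff]
  -- the rows
  have hRq : ∀ p ∈ (a * b).primeFactors, IsUnit ((p : ℕ) : ZMod q) := by
    intro p hp
    rw [isUnit_iff_ne_zero, Ne, ZMod.natCast_eq_zero_iff]
    intro h
    have h1 := (Nat.prime_dvd_prime_iff_eq hq (Nat.prime_of_mem_primeFactors hp)).1 h
    exact hqN (dvd_mul_of_dvd_left (h1 ▸ Nat.dvd_of_mem_primeFactors hp) _)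
  obtain ⟨u, hu, hnum⟩ := num_eq (C := q * (s0 + 1)) (M := s0 + 1) (n := n) (s := s) ha hb hab hQ hK hn' hbox hRq
    (-(a : ZMod q) / b) (by field_simp)
  have hθ0 : ∀ i, (theta a b Q (n i) (s i) : ZMod q) ≠ 0 := by
    intro i
    unfold theta
    rw [Nat.cast_mul, Nat.cast_prod]
    refine mul_ne_zero ?_ (Finset.prod_ne_zero_iff.2 fun p hp => ?_)
    · rw [Ne, ZMod.natCast_eq_zero_iff]
      exact hsq' i
    · rw [Nat.cast_pow]
      exact pow_ne_zero _ (hRq p hp).ne_zero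
  have hκ : -(a : ZMod q) / b ≠ 1 := by
    intro h
    rw [div_eq_one_iff_eq hb0] at h
    have h1 : ((a + b : ℕ) : ZMod q) = 0 := by
      push_cast
      rw [← h]
      ring
    rw [ZMod.natCast_eq_zero_iff] at h1
    exact hqc h1
  obtain ⟨rows, hrows, hdet⟩ := exists_rows {v : Row r | IsRow r Q (q * (s0 + 1)) (s0 + 1) n v}
    (fun v (c : Col r q ((r + 1) * s0)) =>
      entry (fun v => u * (∏ i, (theta a b Q (n i) (s i) : ZMod q) ^ v.1 i) * (-(a : ZMod q) / b) ^ v.2) v c)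
    (fun x hx => by
      obtain ⟨v, hv, h⟩ := zero_estimate hr hQ n hn' hD hs0 hsq (fun i => (theta a b Q (n i) (s i) : ZMod q)) hθ0
        (-(a : ZMod q) / b) u (div_ne_zero (neg_ne_zero.2 ha0) hb0) hκ hu.ne_zero x hx
      exact ⟨v, hv, h⟩)
  refine ⟨rows, hrows, ?_, ?_⟩
  · intro h0
    apply hdet
    have h1 : (Matrix.of fun c d => entry (fun v => u * (∏ i, (theta a b Q (n i) (s i) : ZMod q) ^ v.1 i) *
          (-(a : ZMod q) / b) ^ v.2) (rows c) d) =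
        (Int.castRingHom (ZMod q)).mapMatrix
          (Matrix.of fun c d => entry (num a b Q K (q * (s0 + 1)) (s0 + 1) r n s) (rows c) d) := by
      ext c d
      rw [RingHom.mapMatrix_apply, Matrix.map_apply, Matrix.of_apply, Matrix.of_apply]
      rcases d with p | a'
      · simp only [entry]
        simp
      · simp only [entry]
        rw [← hnum (rows c) (hrows c)]
        push_cast
        simp
    rw [h1, ← RingHom.map_det, h0, map_zero]
  · set P := modulus (a + b) Q with hP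
    set R := ZMod (P ^ (((r + 1) * s0 - 1) * q)) with hR
    have hPc : ∀ m : ℕ, m.Coprime (a + b) → IsUnit ((m : ℕ) : R) := by
      intro m hm
      rw [ZMod.isUnit_iff_coprime]
      refine Nat.Coprime.pow_right _ (Nat.Coprime.prod_right fun p hp => ?_)
      refine Nat.Coprime.pow_right _ ?_
      exact Nat.Coprime.coprime_dvd_right (Nat.dvd_of_mem_primeFactors hp) hm
    have hac : a.Coprime (a + b) := by simpa using hab
    have hbc : b.Coprime (a + b) := by simpa using hab.symm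
    have hRP : ∀ p ∈ (a * b).primeFactors, IsUnit ((p : ℕ) : R) := by
      intro p hp
      refine hPc p (Nat.Coprime.coprime_dvd_left (Nat.dvd_of_mem_primeFactors hp) ?_)
      exact Nat.Coprime.mul_left hac hbc
    have hbu : IsUnit ((b : ℕ) : R) := hPc b hbc
    obtain ⟨bu, hbu'⟩ := hbu
    obtain ⟨u', hu', hnum'⟩ := num_eq (C := q * (s0 + 1)) (M := s0 + 1) (n := n) (s := s) ha hb hab hQ hK hn' hbox hRP
      (-(a : R) * (bu⁻¹ : Rˣ)) (by rw [mul_assoc, ← hbu', Units.inv_mul, mul_one])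
    have hθu : ∀ i, IsUnit ((theta a b Q (n i) (s i) : ℕ) : R) := by
      intro i
      refine hPc _ ?_
      unfold theta
      refine Nat.Coprime.mul_left ?_ (Nat.Coprime.prod_left fun p hp => Nat.Coprime.pow_left _ ?_)
      · exact Nat.Coprime.coprime_dvd_right (dvd_mul_left _ _) (hsc i)
      · exact Nat.Coprime.coprime_dvd_left (Nat.dvd_of_mem_primeFactors hp) (Nat.Coprime.mul_left hac hbc)
    choose θu hθu' using hθu
    refine dvd_det hq.pos hr (Nat.mul_pos (Nat.succ_pos r) hs0) P (num a b Q K (q * (s0 + 1)) (s0 + 1) r n s)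
      (u' * ((θu 0 ^ ((r + 1) * (q * (s0 + 1))) : Rˣ) : R)) (-(a : R) * (bu⁻¹ : Rˣ))
      (fun i => ((θu i.succ * (θu 0)⁻¹ : Rˣ) : R)) ?_ ?_ rows ?_
    · intro i
      have h1 : ((P : ℕ) : R) ∣ ((θu i.succ : Rˣ) : R) - ((θu 0 : Rˣ) : R) := by
        rw [hθu', hθu']
        have h2 : (P : ℤ) ∣ (theta a b Q (n i.succ) (s i.succ) : ℤ) - theta a b Q (n 0) (s 0) := by
          have h3 := (hθ i.succ).symm
          exact (Nat.modEq_iff_dvd.1 h3)
        obtain ⟨y, hy⟩ := h2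
        refine ⟨(y : R), ?_⟩
        have h4 := congrArg (fun z : ℤ => (z : R)) hy
        rw [Int.cast_mul, Int.cast_sub, Int.cast_natCast, Int.cast_natCast, Int.cast_natCast] at h4
        exact h4
      obtain ⟨y, hy⟩ := h1
      refine ⟨y * ((θu 0)⁻¹ : Rˣ), ?_⟩
      have h5 : (((θu 0) : Rˣ) : R) * (((θu 0)⁻¹ : Rˣ) : R) = 1 := Units.mul_inv _
      rw [Units.val_mul]
      calc ((θu i.succ : Rˣ) : R) * (((θu 0)⁻¹ : Rˣ) : R) - 1
          = (((θu i.succ : Rˣ) : R) - ((θu 0 : Rˣ) : R)) * (((θu 0)⁻¹ : Rˣ) : R) := by rw [sub_mul, h5]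
        _ = _ := by rw [hy, mul_assoc]
    · obtain ⟨y, hy⟩ := modulus_pow_dvd (c := a + b) (Q := Q) (q := q) (by omega) hqQ
      refine ⟨-(y : R) * ((bu⁻¹ : Rˣ) : R), ?_⟩
      have h5 : ((bu : Rˣ) : R) * ((bu⁻¹ : Rˣ) : R) = 1 := Units.mul_inv _
      have h6 : ((a : R) + (b : R)) = (P : R) ^ q * (y : R) := by
        have := congrArg (fun z : ℕ => (z : R)) hy
        rw [Nat.cast_add, ← hP, Nat.cast_mul, Nat.cast_pow] at this
        exact this
      calc -(a : R) * ((bu⁻¹ : Rˣ) : R) - 1 = -(a : R) * ((bu⁻¹ : Rˣ) : R) - ((bu : Rˣ) : R) * ((bu⁻¹ : Rˣ) : R) := by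
            rw [h5]
        _ = -(((a : R) + (b : R)) * ((bu⁻¹ : Rˣ) : R)) := by rw [hbu']; ring
        _ = _ := by rw [h6]; ring
    · intro c
      rw [hnum' (rows c) (hrows c)]
      have h1 := prod_shift θu (rows c).1 _ (hrows c).1
      simp only [hθu'] at h1
      rw [h1]
      ring

end Pool.Agent.Helper18.ZE
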